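import Pool.Agent.P.MP_64c1fc_an.Main

set_option autoImplicit false

namespace Pool.Agent.Results.MP_64c1fc_an.NotDense

open Pool.Agent.P.MP_64c1fc_an

/-- The closure of the rational bifurcation parameters of the Tanaka-Ito maps is not the set of
non-isolated bifurcation parameters. -/
theorem result :
    closure (bifurcationSet ∩ Set.range ((↑) : ℚ → ℝ)) ≠ nonIsolated :=
  closure_ne

end Pool.Agent.Results.MP_64c1fc_an.NotDense
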